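import Pool.Agent.Helper2.SV.GoalsP
import Pool.Agent.Helper2.SV.GoalsF

/-!
# Project SV, packet S7B: there is no claw inside `Y` when `X+` is empty
-/

set_option autoImplicit false

namespace Pool.Agent.Helper20.SV

open Pool.Agent.Helper2.SV

theorem goalS7B (hMI : G_MI) (hS2 : G_S2) : G_S7B := by
  intro V _ G Q hF hConn hQ hX v a b c hv ha hb hc hva hvb hvc hab hac hbc
  by_contra hcon
  push Not at hcon
  obtain ⟨nab, nac, nbc⟩ := hcon
  obtain ⟨hdom, hsimp, hprime, hcocon, htwo⟩ := hMI.2 V G Q hQ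
  have hQne : ∃ q0, q0 ∈ Q := by
    by_contra h
    apply htwo ∅ ∅ (clq_empty G) (clq_empty G)
    intro x hx
    exact absurd ⟨x, hx⟩ h
  obtain ⟨q0, hq0⟩ := hQne
  set F : Set V := {x | x ≠ v ∧ x ≠ a ∧ x ≠ b ∧ x ≠ c ∧
    ¬ G.Adj x v ∧ ¬ G.Adj x a ∧ ¬ G.Adj x b ∧ ¬ G.Adj x c} with hFdef
  have hQF : ∀ q ∈ Q, q ∈ F := by
    intro q hq
    refine ⟨?_, ?_, ?_, ?_, ?_, ?_, ?_, ?_⟩
    · rintro rfl; exact hv.1 hq
    · rintro rfl; exact ha.1 hq
    · rintro rfl; exact hb.1 hq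
    · rintro rfl; exact hc.1 hq
    · intro h; exact hv.2 q hq h.symm
    · intro h; exact ha.2 q hq h.symm
    · intro h; exact hb.2 q hq h.symm
    · intro h; exact hc.2 q hq h.symm
  set rel : V → V → Prop := fun x y => x ∈ F ∧ y ∈ F ∧ G.Adj x y with hrel
  set D : Set V := {x | Relation.ReflTransGen rel q0 x} with hDdef
  have hq0D : q0 ∈ D := Relation.ReflTransGen.refl
  have hDF : ∀ x ∈ D, x ∈ F := by
    intro x hx
    induction hx with
    | refl => exact hQF q0 hq0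
    | tail _ h _ => exact h.2.1
  have hDstep : ∀ x ∈ D, ∀ y ∈ F, G.Adj x y → y ∈ D := fun x hx y hy hxy =>
    Relation.ReflTransGen.tail hx ⟨hDF x hx, hy, hxy⟩
  have hvD : v ∉ D := fun h => (hDF v h).1 rfl
  obtain ⟨x, hxD, p, hpD, hxp⟩ := hConn D ⟨q0, hq0D⟩
    (by intro h; apply hvD; rw [h]; trivial)
  have hpF : p ∉ F := fun h => hpD (hDstep x hxD p h hxp)
  obtain ⟨_, _, _, _, hxv, hxa, hxb, hxc⟩ := hDF x hxD
  have hpv : p ≠ v := by rintro rfl; exact hxv hxp
  have hpa : p ≠ a := by rintro rfl; exact hxa hxp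
  have hpb : p ≠ b := by rintro rfl; exact hxb hxp
  have hpc : p ≠ c := by rintro rfl; exact hxc hxp
  have hpL : G.Adj p v ∨ G.Adj p a ∨ G.Adj p b ∨ G.Adj p c := by
    by_contra h
    push Not at h
    exact hpF ⟨hpv, hpa, hpb, hpc, h.1, h.2.1, h.2.2.1, h.2.2.2⟩
  have claim : ∃ p2 ∈ D, ∃ p3 ∈ D, G.Adj p p2 ∧ G.Adj p2 p3 ∧ ¬ G.Adj p p3 := by
    by_contra h
    push Not at h
    have hback : ∀ y, Relation.ReflTransGen rel q0 y → G.Adj p y → G.Adj p q0 := by
      intro y hy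
      induction hy with
      | refl => exact fun h => h
      | @tail b' y' h1 h2 ih =>
        intro hp
        have hb' : b' ∈ D := h1
        have hy' : y' ∈ D := Relation.ReflTransGen.tail h1 h2
        exact ih (h y' hy' b' hb' hp h2.2.2.symm)
    have hpq0 : G.Adj p q0 := hback x hxD hxp.symm
    obtain ⟨l, hl, hpl⟩ : ∃ l ∈ Ys G Q, G.Adj p l := by
      rcases hpL with h | h | h | h
      · exact ⟨v, hv, h⟩
      · exact ⟨a, ha, h⟩
      · exact ⟨b, hb, h⟩
      · exact ⟨c, hc, h⟩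
    have hpQ : p ∉ Q := fun hp => hl.2 p hp hpl.symm
    have hpX : p ∉ Xs G Q := by
      intro hp
      have : p ∈ Xp G Q := ⟨hp, l, hl, hpl⟩
      rw [hX] at this
      exact this
    have hpZ : p ∈ Zs G Q := by
      refine ⟨hpQ, ⟨q0, hq0, hpq0⟩, ?_⟩
      by_contra h'
      push Not at h'
      exact hpX ⟨hpQ, h'⟩
    have hcl := (hS2 V G Q hF hQ l hl p hpZ hpl.symm).1
    apply hsimp q0 hq0
    apply hcl.mono
    rintro q ⟨hq, hq0q⟩
    exact ⟨hq, h q0 hq0D q (hDstep q0 hq0D q (hQF q hq) hq0q) hpq0 hq0q⟩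
  obtain ⟨p2, hp2, p3, hp3, hpp2, hp23, hpp3⟩ := claim
  obtain ⟨n2v, n2a, n2b, n2c, a2v, a2a, a2b, a2c⟩ := hDF p2 hp2
  obtain ⟨n3v, n3a, n3b, n3c, a3v, a3a, a3b, a3c⟩ := hDF p3 hp3
  have hp3p : p3 ≠ p := by rintro rfl; exact hpD hp3
  -- two of the leaves are adjacent to `p`
  have two : ∀ s t, s ≠ t → ¬ G.Adj s t → p2 ≠ s → p2 ≠ t → ¬ G.Adj p2 s → ¬ G.Adj p2 t →
      ¬ G.Adj p3 s → ¬ G.Adj p3 t → G.Adj p s → G.Adj p t → False := by
    intro s t hst nst h2s h2t a2s a2t a3s a3t hps hpt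
    rcases hF p s t p2 p3 hps hpt hpp2 hp23 hst h2s.symm h2t.symm hp3p with
      h | h | h | h | h | h
    · exact nst h
    · exact a2s h.symm
    · exact a2t h.symm
    · exact hpp3 h
    · exact a3s h.symm
    · exact a3t h.symm
  -- `p` is adjacent to `v` and not to two leaves
  have one : ∀ s t, G.Adj v s → G.Adj v t → s ≠ t → ¬ G.Adj s t → s ≠ p → t ≠ p →
      ¬ G.Adj p2 s → ¬ G.Adj p2 t → G.Adj p v → ¬ G.Adj p s → ¬ G.Adj p t → False := by
    intro s t hvs hvt hst nst hsp htp a2s a2t hpv' hps hpt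
    rcases hF v s t p p2 hvs hvt hpv'.symm hpp2 hst hsp htp n2v with
      h | h | h | h | h | h
    · exact nst h
    · exact hps h.symm
    · exact hpt h.symm
    · exact a2v h.symm
    · exact a2s h.symm
    · exact a2t h.symm
  -- `p` is not adjacent to `v` and adjacent to exactly one leaf
  have zero : ∀ r s t, G.Adj v r → G.Adj v s → G.Adj v t → s ≠ t → s ≠ r → t ≠ r →
      ¬ G.Adj s t → ¬ G.Adj s r → ¬ G.Adj t r → ¬ G.Adj p v → G.Adj p r →
      ¬ G.Adj p s → ¬ G.Adj p t → False := by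
    intro r s t hvr hvs hvt hst hsr htr nst nsr ntr hpv' hpr hps hpt
    rcases hF v s t r p hvs hvt hvr hpr.symm hst hsr htr hpv with
      h | h | h | h | h | h
    · exact nst h
    · exact nsr h
    · exact ntr h
    · exact hpv' h.symm
    · exact hps h.symm
    · exact hpt h.symm
  have nba : ¬ G.Adj b a := fun h => nab h.symm
  have nca : ¬ G.Adj c a := fun h => nac h.symm
  have ncb : ¬ G.Adj c b := fun h => nbc h.symm
  by_cases pa : G.Adj p a
  · by_cases pb : G.Adj p b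
    · exact two a b hab nab n2a n2b a2a a2b a3a a3b pa pb
    · by_cases pc : G.Adj p c
      · exact two a c hac nac n2a n2c a2a a2c a3a a3c pa pc
      · by_cases pv : G.Adj p v
        · exact one b c hvb hvc hbc nbc hpb.symm hpc.symm a2b a2c pv pb pc
        · exact zero a b c hva hvb hvc hbc hab.symm hac.symm nbc nba nca pv pa pb pc
  · by_cases pb : G.Adj p b
    · by_cases pc : G.Adj p c
      · exact two b c hbc nbc n2b n2c a2b a2c a3b a3c pb pc
      · by_cases pv : G.Adj p v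
        · exact one a c hva hvc hac nac hpa.symm hpc.symm a2a a2c pv pa pc
        · exact zero b a c hvb hva hvc hac hab hbc.symm nac nab ncb pv pb pa pc
    · by_cases pv : G.Adj p v
      · exact one a b hva hvb hab nab hpa.symm hpb.symm a2a a2b pv pa pb
      · rcases hpL with h | h | h | h
        · exact pv h
        · exact pa h
        · exact pb h
        · exact zero c a b hvc hva hvb hab hac hbc nab nac nbc pv h pa pb

end Pool.Agent.Helper20.SV
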